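import Pool.Agent.KTB.StmtsKB

set_option autoImplicit false

/-!
# Squad KTB, row FBG: three free big points
-/

namespace Pool.Agent.KTB.H16

open Pool.Agent.KTB Finset
open scoped Classical

/-- a big point which is not free -/
def BadP {ι κ : Type} (r : Finset ι → ℕ) (E : κ → Finset ι) (K : Finset κ) (k : κ) (t : ι) : Prop :=
  k ∈ K ∧ t ∈ E k ∧ 3 ≤ (E k).card ∧ ∃ j ∈ Btt r E K k t, (E j).card ≠ 2

theorem exists_min_pt {ι κ : Type} (f : κ → ι → ℕ) (P : κ → ι → Prop) (h : ∃ k t, P k t) :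
    ∃ k t, P k t ∧ ∀ k' t', P k' t' → f k t ≤ f k' t' := by
  have h1 : ∃ n, ∃ k t, P k t ∧ f k t = n := by
    obtain ⟨k, t, hkt⟩ := h
    exact ⟨f k t, k, t, hkt, rfl⟩
  obtain ⟨k, t, hkt, hn⟩ := Nat.find_spec h1
  refine ⟨k, t, hkt, fun k' t' h' => ?_⟩
  rw [hn]
  exact Nat.find_min' h1 ⟨k', t', h', rfl⟩

theorem fbg (TGM : TgmStmt) (TGD : TgdStmt) : FbgStmt := by
  intro ι κ r E K hR hbig
  have hBK : ∀ k t, ∀ j ∈ Btt r E K k t, j ∈ K := by
    intro k t j hj
    exact (mem_filter.1 hj).1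
  obtain ⟨hd1, hd2⟩ := TGD ι κ r E K hR
  -- a big block in `Btt`
  have hbig3 : ∀ k t, BadP r E K k t → ∃ j ∈ Btt r E K k t, j ∈ K ∧ 3 ≤ (E j).card := by
    rintro k t ⟨-, -, -, j, hj, hj2⟩
    have h1 := hR.two j (hBK k t j hj)
    exact ⟨j, hj, hBK k t j hj, by omega⟩
  have hfb : ∀ k t, k ∈ K → t ∈ E k → 3 ≤ (E k).card → ¬ BadP r E K k t → Fre r E K k t := by
    intro k t hk ht h3 hb
    refine ⟨hk, ht, h3, fun j hj => ?_⟩
    by_contra hj2
    exact hb ⟨hk, ht, h3, j, hj, hj2⟩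
  -- the points of the block `k` with `j ∈ Btt`
  have hone : ∀ k ∈ K, 3 ≤ (E k).card → ∀ j,
      ((E k).filter fun t => j ∈ Btt r E K k t).card ≤ 1 := by
    intro k hk h3 j
    rw [Finset.card_le_one]
    intro a ha b hb
    rw [mem_filter] at ha hb
    by_contra hab
    exact Finset.disjoint_left.1 (hd1 k hk h3 a ha.1 b hb.1 hab) ha.2 hb.2
  -- the free points of a block
  have hcount : ∀ k, ((E k).filter fun t => ¬ BadP r E K k t).card
      + ((E k).filter fun t => BadP r E K k t).card = (E k).card := by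
    intro k
    rw [add_comm]
    exact Finset.card_filter_add_card_filter_not _
  have hinj : ∀ k : κ, Set.InjOn (fun t : ι => (k, t))
      (((E k).filter fun t => ¬ BadP r E K k t : Finset ι) : Set ι) := by
    intro k a _ b _ hab
    exact (Prod.mk.inj hab).2
  have hcard : ∀ k, (((E k).filter fun t => ¬ BadP r E K k t).image fun t => (k, t)).card
      = ((E k).filter fun t => ¬ BadP r E K k t).card := fun k => Finset.card_image_of_injOn (hinj k)
  have hfre : ∀ k ∈ K, 3 ≤ (E k).card →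
      ∀ q ∈ ((E k).filter fun t => ¬ BadP r E K k t).image fun t => (k, t),
        Fre r E K q.1 q.2 := by
    intro k hk h3 q hq
    rw [Finset.mem_image] at hq
    obtain ⟨t, ht, rfl⟩ := hq
    rw [mem_filter] at ht
    exact hfb k t hk ht.1 h3 ht.2
  by_cases hbad : ∃ k t, BadP r E K k t
  swap
  · obtain ⟨k, hk, h3⟩ := hbig
    refine ⟨((E k).filter fun t => ¬ BadP r E K k t).image fun t => (k, t), ?_, hfre k hk h3⟩
    rw [hcard]
    have h1 := hcount k
    have h2 : ((E k).filter fun t => BadP r E K k t) = ∅ := by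
      rw [Finset.filter_eq_empty_iff]
      intro t _ hb
      exact hbad ⟨k, t, hb⟩
    rw [h2, Finset.card_empty] at h1
    omega
  obtain ⟨k0, t0, hb0, hmin0⟩ := exists_min_pt (fun k t => (Btt r E K k t).card)
    (fun k t => BadP r E K k t) hbad
  obtain ⟨k1, hk1B, hk1K, hk13⟩ := hbig3 k0 t0 hb0
  have hbne : ∀ k t, BadP r E K k t → (Btt r E K k t).Nonempty := by
    rintro k t ⟨-, -, -, j, hj, -⟩
    exact ⟨j, hj⟩
  have hbad1 : ((E k1).filter fun t => BadP r E K k1 t).card ≤ 1 := by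
    refine le_trans (Finset.card_le_card ?_) (hone k1 hk1K hk13 k0)
    intro t ht
    rw [mem_filter] at ht ⊢
    refine ⟨ht.1, ?_⟩
    by_contra hno
    have h1 := hd2 k0 hb0.1 t0 hb0.2.1 k1 hk1B t ht.1 (hbne k1 t ht.2) hno
    have h2 := hmin0 k1 t ht.2
    omega
  have hfr1 := hcount k1
  by_cases hall : ∃ t1, BadP r E K k1 t1
  swap
  · refine ⟨((E k1).filter fun t => ¬ BadP r E K k1 t).image fun t => (k1, t), ?_,
      hfre k1 hk1K hk13⟩
    rw [hcard]
    have h2 : ((E k1).filter fun t => BadP r E K k1 t) = ∅ := by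
      rw [Finset.filter_eq_empty_iff]
      intro t _ hb
      exact hall ⟨t, hb⟩
    rw [h2, Finset.card_empty] at hfr1
    omega
  obtain ⟨t1, hb1⟩ := hall
  have hnot1 : k1 ∉ Btt r E K k1 t1 :=
    (TGM ι κ r E K hR k1 hk1K t1 hb1.2.1 (hbne k1 t1 hb1)).2.1
  obtain ⟨k', t', hb', hmin'⟩ := exists_min_pt (fun k t => (Btt r E K k t).card)
    (fun k t => BadP r E K k t ∧ k1 ∉ Btt r E K k t) ⟨k1, t1, hb1, hnot1⟩
  obtain ⟨k2, hk2B, hk2K, hk23⟩ := hbig3 k' t' hb'.1
  have hk21 : k2 ≠ k1 := by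
    rintro rfl
    exact hb'.2 hk2B
  have hbad2 : ((E k2).filter fun t => BadP r E K k2 t).card ≤ 2 := by
    have hsub : ((E k2).filter fun t => BadP r E K k2 t) ⊆
        ((E k2).filter fun t => k1 ∈ Btt r E K k2 t) ∪
        ((E k2).filter fun t => k' ∈ Btt r E K k2 t) := by
      intro t ht
      rw [mem_filter] at ht
      rw [Finset.mem_union, mem_filter, mem_filter]
      by_contra hno
      push Not at hno
      have hn1 := hno.1 ht.1
      have hn2 := hno.2 ht.1
      have h1 := hd2 k' hb'.1.1 t' hb'.1.2.1 k2 hk2B t ht.1 (hbne k2 t ht.2) hn2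
      have h2 := hmin' k2 t ⟨ht.2, hn1⟩
      omega
    have h1 := Finset.card_le_card hsub
    have h2 := Finset.card_union_le ((E k2).filter fun t => k1 ∈ Btt r E K k2 t)
      ((E k2).filter fun t => k' ∈ Btt r E K k2 t)
    have h3 := hone k2 hk2K hk23 k1
    have h4 := hone k2 hk2K hk23 k'
    omega
  have hfr2 := hcount k2
  refine ⟨(((E k1).filter fun t => ¬ BadP r E K k1 t).image fun t => (k1, t)) ∪
    (((E k2).filter fun t => ¬ BadP r E K k2 t).image fun t => (k2, t)), ?_, ?_⟩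
  · rw [Finset.card_union_of_disjoint, hcard, hcard]
    · omega
    · rw [Finset.disjoint_left]
      intro q hq1 hq2
      rw [Finset.mem_image] at hq1 hq2
      obtain ⟨a, -, rfl⟩ := hq1
      obtain ⟨b, -, hb⟩ := hq2
      exact hk21 (Prod.mk.inj hb).1
  · intro q hq
    rw [Finset.mem_union] at hq
    rcases hq with hq | hq
    · exact hfre k1 hk1K hk13 q hq
    · exact hfre k2 hk2K hk23 q hq

end Pool.Agent.KTB.H16
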