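import Pool.Agent.KTB.StmtsKA

set_option autoImplicit false

/-!
# Squad KTB, row STS: signed relations
-/

namespace Pool.Agent.KTB.H16

open Pool.Agent.KTB Finset
open scoped Classical

/-- the negative elements of `ρ` -/
noncomputable def ngs {ι : Type} [Fintype ι] (ρ : ι → ℚ) : Finset ι := univ.filter fun a => ρ a < 0

theorem mem_ngs {ι : Type} [Fintype ι] (ρ : ι → ℚ) (a : ι) : a ∈ ngs ρ ↔ ρ a < 0 := by
  simp [ngs]

/-- the proportional class of `a` in the negative elements -/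
noncomputable def qcl {ι T : Type} [Fintype ι] (D : Dat ι T) (S : Finset ι) (ρ : ι → ℚ) (a : ι) :
    Finset ι :=
  (ngs ρ).filter fun b => ∃ c : ℚ, 0 < c ∧ ∀ l, D.Sol S l → l b = c * l a

theorem mem_qcl {ι T : Type} [Fintype ι] (D : Dat ι T) (S : Finset ι) (ρ : ι → ℚ) (a b : ι) :
    b ∈ qcl D S ρ a ↔ ρ b < 0 ∧ ∃ c : ℚ, 0 < c ∧ ∀ l, D.Sol S l → l b = c * l a := by
  unfold qcl
  rw [mem_filter, mem_ngs]

theorem qcl_self {ι T : Type} [Fintype ι] (D : Dat ι T) (S : Finset ι) (ρ : ι → ℚ) (a : ι)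
    (ha : ρ a < 0) : a ∈ qcl D S ρ a := by
  rw [mem_qcl]
  exact ⟨ha, 1, one_pos, fun l _ => (one_mul _).symm⟩

theorem qcl_eq {ι T : Type} [Fintype ι] (D : Dat ι T) (S : Finset ι) (ρ : ι → ℚ) (a b : ι)
    (hb : b ∈ qcl D S ρ a) : qcl D S ρ b = qcl D S ρ a := by
  rw [mem_qcl] at hb
  obtain ⟨-, c, hc, h⟩ := hb
  ext e
  rw [mem_qcl, mem_qcl]
  constructor
  · rintro ⟨he, c', hc', h'⟩
    refine ⟨he, c' * c, by positivity, fun l hl => ?_⟩
    rw [h' l hl, h l hl]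
    ring
  · rintro ⟨he, c', hc', h'⟩
    refine ⟨he, c' * c⁻¹, by positivity, fun l hl => ?_⟩
    rw [h' l hl, h l hl]
    field_simp

/-- the peeling data of one class -/
def PelD {ι T : Type} [Fintype ι] (D : Dat ι T) (S Q : Finset ι) (h : ι → ℕ) (Y : ι → ι)
    (κ : ι → T) : Prop :=
  Set.InjOn h (Q : Set ι) ∧ Set.InjOn Y (Q : Set ι) ∧
      ∀ A ∈ Q, Y A ∈ S ∧ Y A ∉ Q ∧ D.x (κ A) A ≠ 0 ∧
        D.Priv (S \ Q.filter fun r => h A ≤ h r) (Y A) (κ A) ∧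
        ∀ j, D.Priv (S \ Q.filter fun r => h A ≤ h r) (Y A) j → j = κ A

theorem sts_data (IDN : IdnStmt) (RAY : RayStmt) (PEL : PelStmt) {ι T : Type} [Fintype ι]
    (D : Dat ι T) (S : Finset ι) (hLL : D.LL S) (ρ : ι → ℚ) (hρ : ρ ∈ D.R S)
    (hval : ∀ R, D.Valid S R → ∀ r ∈ R, 0 ≤ ρ r) (hne : (ngs ρ).Nonempty) :
    ∃ (h : ι → ℕ) (Y : ι → ι) (κ : ι → T) (cA : ι → ℚ),
      (∀ A, ρ A < 0 → Y A ∈ S ∧ Y A ∉ qcl D S ρ A ∧ D.x (κ A) A ≠ 0 ∧
        D.Priv (S \ (qcl D S ρ A).filter fun r => h A ≤ h r) (Y A) (κ A) ∧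
        ∀ j, D.Priv (S \ (qcl D S ρ A).filter fun r => h A ≤ h r) (Y A) j → j = κ A) ∧
      (∀ A, ρ A < 0 → ∀ B ∈ qcl D S ρ A, Y A = Y B → A = B) ∧
      (∀ A, ρ A < 0 → (∀ l, D.Sol S l → l (Y A) = 1 - cA A * l A) ∧ 1 ≤ cA A ∧
        (cA A = 1 → D.x (κ A) A = 1 ∧
          ∀ r ∈ (qcl D S ρ A).filter fun r => h A ≤ h r, r ≠ A → D.x (κ A) r = 0)) := by
  obtain ⟨l1, hl1⟩ := hLL.1
  have hIDN := IDN ι T D S
  have hsolρ : D.Sol S (l1 + ρ) := hIDN.2.2.2.1 l1 hl1 ρ hρ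
  have hρS : ∀ a, a ∉ S → ρ a = 0 := hρ.2
  have hQS : ∀ a, qcl D S ρ a ⊆ S := by
    intro a b hb
    rw [mem_qcl] at hb
    by_contra hbS
    rw [hρS b hbS] at hb
    exact lt_irrefl _ hb.1
  -- the constants
  have hp : ∀ a, ∃ p : ι → ℚ, ∀ r ∈ qcl D S ρ a, 0 < p r ∧ ∀ l, D.Sol S l → l r = p r * l a := by
    intro a
    have h1 : ∀ r, ∃ c : ℚ, r ∈ qcl D S ρ a → 0 < c ∧ ∀ l, D.Sol S l → l r = c * l a := by
      intro r
      by_cases hr : r ∈ qcl D S ρ a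
      · obtain ⟨-, c, hc, h⟩ := (mem_qcl D S ρ a r).1 hr
        exact ⟨c, fun _ => ⟨hc, h⟩⟩
      · exact ⟨1, fun h => absurd h hr⟩
    choose p hp using h1
    exact ⟨p, fun r hr => hp r hr⟩
  choose p hp using hp
  have hpa : ∀ a, ρ a < 0 → p a a = 1 := by
    intro a ha
    obtain ⟨-, h1⟩ := hp a a (qcl_self D S ρ a ha)
    have h2 := h1 l1 hl1
    have h3 := h1 _ hsolρ
    rw [Pi.add_apply] at h3
    have h4 : ρ a * (p a a - 1) = 0 := by linarith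
    rcases mul_eq_zero.1 h4 with h5 | h5
    · exact absurd h5 ha.ne
    · linarith
  have hray : ∀ a, ρ a < 0 → ∀ Q ⊆ qcl D S ρ a, D.Ray S Q (p a) (fun l => l a) := by
    intro a ha Q hQ
    refine ⟨fun b hb => hQS a (hQ hb), fun r hr => hp a r (hQ hr), l1, l1 + ρ, hl1, hsolρ, ?_⟩
    show l1 a ≠ (l1 + ρ) a
    rw [Pi.add_apply]
    intro h
    have : ρ a = 0 := by linarith
    exact ha.ne this
  have hnoll : ∀ a, ρ a < 0 → ∀ R, R ⊆ qcl D S ρ a → R.Nonempty → ¬ D.LL (S \ R) := by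
    intro a ha R hR hRne hll
    obtain ⟨r, hr⟩ := hRne
    have h1 := hval R ⟨p a, fun l => l a, ⟨r, hr⟩, hray a ha R hR, hll⟩ r hr
    have h2 := ((mem_qcl D S ρ a r).1 (hR hr)).1
    linarith
  have hT : Nonempty T := by
    by_contra hT
    rw [not_nonempty_iff] at hT
    obtain ⟨a, ha⟩ := hne
    rw [mem_ngs] at ha
    refine hnoll a ha (qcl D S ρ a) (Finset.Subset.refl _) ⟨a, qcl_self D S ρ a ha⟩ ⟨?_, ?_⟩
    · exact (RAY ι T D S _ _ _ (hray a ha _ (Finset.Subset.refl _)) ⟨a, qcl_self D S ρ a ha⟩).2.2.1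
    · intro b i
      exact (hT.false i).elim
  have hι : Nonempty ι := ⟨hne.choose⟩
  have hpel : ∀ Q : Finset ι, ∃ (h : ι → ℕ) (Y : ι → ι) (κ : ι → T),
      (∃ a, ρ a < 0 ∧ Q = qcl D S ρ a) → PelD D S Q h Y κ := by
    intro Q
    by_cases hQ : ∃ a, ρ a < 0 ∧ Q = qcl D S ρ a
    · obtain ⟨a, ha, hQa⟩ := hQ
      rw [hQa]
      obtain ⟨h, Y, κ, hh⟩ := PEL ι T D S (qcl D S ρ a) (p a) (fun l => l a) hLL
        (hray a ha _ (Finset.Subset.refl _)) (hnoll a ha)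
      exact ⟨h, Y, κ, fun _ => hh⟩
    · exact ⟨fun _ => 0, fun a => a, fun _ => hT.some, fun h => absurd h hQ⟩
  choose hh YY κκ hP using hpel
  have hPA : ∀ A, ρ A < 0 → PelD D S (qcl D S ρ A) (hh (qcl D S ρ A)) (YY (qcl D S ρ A))
      (κκ (qcl D S ρ A)) := fun A hA => hP _ ⟨A, hA, rfl⟩
  -- the filter with the global `h`
  have hfil : ∀ A, ((qcl D S ρ A).filter fun r => hh (qcl D S ρ A) A ≤ hh (qcl D S ρ r) r)
      = (qcl D S ρ A).filter fun r => hh (qcl D S ρ A) A ≤ hh (qcl D S ρ A) r := by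
    intro A
    refine Finset.filter_congr ?_
    intro r hr
    rw [qcl_eq D S ρ A r hr]
  refine ⟨fun A => hh (qcl D S ρ A) A, fun A => YY (qcl D S ρ A) A, fun A => κκ (qcl D S ρ A) A,
    fun A => ∑ r ∈ (qcl D S ρ A).filter fun r => hh (qcl D S ρ A) A ≤ hh (qcl D S ρ r) r,
      (D.x (κκ (qcl D S ρ A) A) r : ℚ) * p A r, ?_, ?_, ?_⟩
  · intro A hA
    have h1 := (hPA A hA).2.2 A (qcl_self D S ρ A hA)
    show _ ∧ _ ∧ _ ∧ D.Priv (S \ (qcl D S ρ A).filter fun r =>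
      hh (qcl D S ρ A) A ≤ hh (qcl D S ρ r) r) _ _ ∧ ∀ j, D.Priv (S \ (qcl D S ρ A).filter
        fun r => hh (qcl D S ρ A) A ≤ hh (qcl D S ρ r) r) _ j → j = _
    rw [hfil A]
    exact h1
  · intro A hA B hB hAB
    have h1 : YY (qcl D S ρ A) A = YY (qcl D S ρ B) B := hAB
    rw [qcl_eq D S ρ A B hB] at h1
    exact (hPA A hA).2.1 (qcl_self D S ρ A hA) hB h1
  · intro A hA
    have h1 := (hPA A hA).2.2 A (qcl_self D S ρ A hA)
    have hsub : ((qcl D S ρ A).filter fun r => hh (qcl D S ρ A) A ≤ hh (qcl D S ρ A) r)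
        ⊆ qcl D S ρ A := Finset.filter_subset _ _
    have hAmem : A ∈ (qcl D S ρ A).filter fun r => hh (qcl D S ρ A) A ≤ hh (qcl D S ρ A) r := by
      rw [mem_filter]
      exact ⟨qcl_self D S ρ A hA, le_refl _⟩
    have h2 := (RAY ι T D S _ _ _ (hray A hA _ hsub) ⟨A, hAmem⟩).1 _ _ h1.2.2.2.1
    have hx1 : 1 ≤ D.x (κκ (qcl D S ρ A) A) A := Nat.one_le_iff_ne_zero.2 h1.2.2.1
    show (∀ l, D.Sol S l → l (YY (qcl D S ρ A) A) = 1 - (∑ r ∈ (qcl D S ρ A).filter fun r =>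
      hh (qcl D S ρ A) A ≤ hh (qcl D S ρ r) r, (D.x (κκ (qcl D S ρ A) A) r : ℚ) * p A r) * l A) ∧
      1 ≤ (∑ r ∈ (qcl D S ρ A).filter fun r =>
      hh (qcl D S ρ A) A ≤ hh (qcl D S ρ r) r, (D.x (κκ (qcl D S ρ A) A) r : ℚ) * p A r) ∧
      ((∑ r ∈ (qcl D S ρ A).filter fun r =>
      hh (qcl D S ρ A) A ≤ hh (qcl D S ρ r) r, (D.x (κκ (qcl D S ρ A) A) r : ℚ) * p A r) = 1 →
      D.x (κκ (qcl D S ρ A) A) A = 1 ∧ ∀ r ∈ (qcl D S ρ A).filter fun r =>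
      hh (qcl D S ρ A) A ≤ hh (qcl D S ρ r) r, r ≠ A → D.x (κκ (qcl D S ρ A) A) r = 0)
    rw [hfil A]
    have hnn : ∀ r ∈ (qcl D S ρ A).filter fun r => hh (qcl D S ρ A) A ≤ hh (qcl D S ρ A) r,
        0 ≤ (D.x (κκ (qcl D S ρ A) A) r : ℚ) * p A r := by
      intro r hr
      exact mul_nonneg (Nat.cast_nonneg _) (hp A r (hsub hr)).1.le
    have hsplit := Finset.add_sum_erase _ (fun r => (D.x (κκ (qcl D S ρ A) A) r : ℚ) * p A r)
      hAmem
    have hA1 : (1 : ℚ) ≤ (D.x (κκ (qcl D S ρ A) A) A : ℚ) := by exact_mod_cast hx1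
    have hrest : 0 ≤ ∑ r ∈ ((qcl D S ρ A).filter fun r =>
        hh (qcl D S ρ A) A ≤ hh (qcl D S ρ A) r).erase A,
        (D.x (κκ (qcl D S ρ A) A) r : ℚ) * p A r :=
      Finset.sum_nonneg fun r hr => hnn r (Finset.mem_of_mem_erase hr)
    rw [hpa A hA, mul_one] at hsplit
    refine ⟨h2, by linarith, ?_⟩
    intro h3
    have h4 : (D.x (κκ (qcl D S ρ A) A) A : ℚ) = 1 := by linarith
    have h5 : ∑ r ∈ ((qcl D S ρ A).filter fun r =>
        hh (qcl D S ρ A) A ≤ hh (qcl D S ρ A) r).erase A,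
        (D.x (κκ (qcl D S ρ A) A) r : ℚ) * p A r = 0 := by linarith
    rw [Finset.sum_eq_zero_iff_of_nonneg fun r hr => hnn r (Finset.mem_of_mem_erase hr)] at h5
    refine ⟨by exact_mod_cast h4, ?_⟩
    intro r hr hrA
    have h6 := h5 r (Finset.mem_erase.2 ⟨hrA, hr⟩)
    rcases mul_eq_zero.1 h6 with h7 | h7
    · exact_mod_cast h7
    · exact absurd h7 (hp A r (hsub hr)).1.ne'

theorem sts (IDN : IdnStmt) (RAY : RayStmt) (PEL : PelStmt) : StsStmt := by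
  intro ι T _ D S hLL ρ hρ hρ0 hval
  obtain ⟨l1, hl1⟩ := hLL.1
  have hIDN := IDN ι T D S
  have hsolρ : D.Sol S (l1 + ρ) := hIDN.2.2.2.1 l1 hl1 ρ hρ
  have hρS : ∀ a, a ∉ S → ρ a = 0 := hρ.2
  by_cases hne : (ngs ρ).Nonempty
  swap
  · rw [Finset.not_nonempty_iff_eq_empty] at hne
    have hnn : ∀ a, 0 ≤ ρ a := by
      intro a
      by_contra h
      push Not at h
      have h2 : a ∈ ngs ρ := (mem_ngs ρ a).2 h
      rw [hne] at h2
      exact absurd h2 (Finset.notMem_empty a)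
    refine ⟨Finset.sum_nonneg fun a _ => hnn a, ?_⟩
    intro h0
    exfalso
    rw [Finset.sum_eq_zero_iff_of_nonneg fun a _ => hnn a] at h0
    exact hρ0 (funext fun a => h0 a (Finset.mem_univ a))
  obtain ⟨h, Y, κ, cA, hY, hYinj, hcA⟩ := sts_data IDN RAY PEL D S hLL ρ hρ hval hne
  -- values of ρ
  have hρY : ∀ A, ρ A < 0 → ρ (Y A) = -(cA A * ρ A) := by
    intro A hA
    have h1 := (hcA A hA).1 l1 hl1
    have h2 := (hcA A hA).1 _ hsolρ
    rw [Pi.add_apply, Pi.add_apply] at h2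
    linarith
  have hρY1 : ∀ A, ρ A < 0 → 0 ≤ ρ (Y A) + ρ A := by
    intro A hA
    rw [hρY A hA]
    have := (hcA A hA).2.1
    nlinarith
  have hρY2 : ∀ A, ρ A < 0 → 0 < ρ (Y A) := by
    intro A hA
    have := hρY1 A hA
    linarith
  have hYinj2 : ∀ A B, ρ A < 0 → ρ B < 0 → Y A = Y B → A = B := by
    intro A B hA hB hAB
    refine hYinj A hA B ?_ hAB
    rw [mem_qcl]
    have hcB : 0 < cA B := lt_of_lt_of_le one_pos (hcA B hB).2.1
    have hcA' : 0 < cA A := lt_of_lt_of_le one_pos (hcA A hA).2.1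
    refine ⟨hB, cA A / cA B, by positivity, fun l hl => ?_⟩
    have h1 := (hcA A hA).1 l hl
    have h2 := (hcA B hB).1 l hl
    rw [← hAB] at h2
    field_simp
    linarith
  -- the sum
  have hinj : Set.InjOn Y ((ngs ρ : Finset ι) : Set ι) := by
    intro A hA B hB hAB
    exact hYinj2 A B ((mem_ngs ρ A).1 hA) ((mem_ngs ρ B).1 hB) hAB
  have hdis : Disjoint (ngs ρ) ((ngs ρ).image Y) := by
    rw [Finset.disjoint_left]
    intro a ha ha2
    rw [Finset.mem_image] at ha2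
    obtain ⟨A, hA, rfl⟩ := ha2
    have h1 := hρY2 A ((mem_ngs ρ A).1 hA)
    have h2 := (mem_ngs ρ (Y A)).1 ha
    linarith
  have hsum : ∑ a, ρ a = ∑ A ∈ ngs ρ, (ρ (Y A) + ρ A)
      + ∑ a ∈ univ \ (ngs ρ ∪ (ngs ρ).image Y), ρ a := by
    have h1 := Finset.sum_sdiff (f := ρ) (Finset.subset_univ (ngs ρ ∪ (ngs ρ).image Y))
    rw [Finset.sum_union hdis, Finset.sum_image hinj] at h1
    rw [Finset.sum_add_distrib, ← h1]
    ring
  have hrest : ∀ a ∈ univ \ (ngs ρ ∪ (ngs ρ).image Y), 0 ≤ ρ a := by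
    intro a ha
    rw [Finset.mem_sdiff, Finset.mem_union] at ha
    by_contra hneg
    push Not at hneg
    exact ha.2 (Or.inl ((mem_ngs ρ a).2 hneg))
  refine ⟨?_, ?_⟩
  · rw [hsum]
    exact add_nonneg (Finset.sum_nonneg fun A hA => hρY1 A ((mem_ngs ρ A).1 hA))
      (Finset.sum_nonneg hrest)
  intro h0
  rw [hsum] at h0
  have hs1 : 0 ≤ ∑ A ∈ ngs ρ, (ρ (Y A) + ρ A) :=
    Finset.sum_nonneg fun A hA => hρY1 A ((mem_ngs ρ A).1 hA)
  have hs2 : 0 ≤ ∑ a ∈ univ \ (ngs ρ ∪ (ngs ρ).image Y), ρ a := Finset.sum_nonneg hrest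
  have hs3 : ∑ A ∈ ngs ρ, (ρ (Y A) + ρ A) = 0 := by linarith
  have hs4 : ∑ a ∈ univ \ (ngs ρ ∪ (ngs ρ).image Y), ρ a = 0 := by linarith
  rw [Finset.sum_eq_zero_iff_of_nonneg fun A hA => hρY1 A ((mem_ngs ρ A).1 hA)] at hs3
  rw [Finset.sum_eq_zero_iff_of_nonneg hrest] at hs4
  have hc1 : ∀ A, ρ A < 0 → cA A = 1 := by
    intro A hA
    have h1 := hs3 A ((mem_ngs ρ A).2 hA)
    rw [hρY A hA] at h1
    have h2 : ρ A * (1 - cA A) = 0 := by linarith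
    rcases mul_eq_zero.1 h2 with h3 | h3
    · exact absurd h3 hA.ne
    · linarith
  have hnegS : ∀ A, ρ A < 0 → A ∈ S := by
    intro A hA
    by_contra hn
    rw [hρS A hn] at hA
    exact lt_irrefl _ hA
  have hclean : ∀ A, ρ A < 0 → D.Clean S (κ A) (Y A) A := by
    intro A hA
    obtain ⟨h1, h2, h3, h4, h5⟩ := hY A hA
    obtain ⟨h6, h7⟩ := (hcA A hA).2.2 (hc1 A hA)
    refine ⟨h1, hnegS A hA, ?_, h4.2.1, h6, ?_⟩
    · intro hYA
      exact h2 (by rw [hYA]; exact qcl_self D S ρ A hA)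
    · intro b hbS hb1 hb2
      by_cases hb : b ∈ (qcl D S ρ A).filter fun r => h A ≤ h r
      · exact h7 b hb hb2
      · exact h4.2.2 b (Finset.mem_sdiff.2 ⟨hbS, hb⟩) hb1
  have hclx : ∀ k y y' b, D.Clean S k y y' → b ∈ S → D.x k b ≠ 0 → b = y ∨ b = y' := by
    intro k y y' b hcl hb hx
    by_contra hno
    push Not at hno
    exact hx (hcl.2.2.2.2.2 b hb hno.1 hno.2)
  have hsuppS : ∀ a, ρ a ≠ 0 → a ∈ S := by
    intro a ha
    by_contra hn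
    exact ha (hρS a hn)
  have hpos : ∀ a, 0 < ρ a → ∃ A, ρ A < 0 ∧ Y A = a := by
    intro a ha
    by_contra hno
    push Not at hno
    have h1 : a ∈ univ \ (ngs ρ ∪ (ngs ρ).image Y) := by
      rw [Finset.mem_sdiff, Finset.mem_union]
      refine ⟨Finset.mem_univ a, ?_⟩
      rintro (h2 | h2)
      · have := (mem_ngs ρ a).1 h2
        linarith
      · rw [Finset.mem_image] at h2
        obtain ⟨A, hA, hAa⟩ := h2
        exact hno A ((mem_ngs ρ A).1 hA) hAa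
    have := hs4 a h1
    linarith
  have hM : D.PM S (univ.filter fun a => ρ a ≠ 0) ((ngs ρ).image κ) := by
    constructor
    · intro k hk
      rw [Finset.mem_image] at hk
      obtain ⟨A, hA, rfl⟩ := hk
      rw [mem_ngs] at hA
      refine ⟨Y A, ?_, A, ?_, hclean A hA⟩
      · rw [mem_filter]
        exact ⟨Finset.mem_univ _, (hρY2 A hA).ne'⟩
      · rw [mem_filter]
        exact ⟨Finset.mem_univ _, hA.ne⟩
    · intro a ha
      rw [mem_filter] at ha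
      rcases lt_or_gt_of_ne ha.2 with hneg | hgt
      · refine ⟨κ a, ⟨Finset.mem_image.2 ⟨a, (mem_ngs ρ a).2 hneg, rfl⟩, (hY a hneg).2.2.1⟩, ?_⟩
        rintro k ⟨hk, hkx⟩
        rw [Finset.mem_image] at hk
        obtain ⟨B, hB, rfl⟩ := hk
        rw [mem_ngs] at hB
        rcases hclx _ _ _ a (hclean B hB) (hsuppS a ha.2) hkx with h1 | h1
        · have := hρY2 B hB
          rw [← h1] at this
          linarith
        · rw [h1]
      · obtain ⟨A, hA, hAa⟩ := hpos a hgt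
        refine ⟨κ A, ⟨Finset.mem_image.2 ⟨A, (mem_ngs ρ A).2 hA, rfl⟩, ?_⟩, ?_⟩
        · rw [← hAa, (hclean A hA).2.2.2.1]
          exact one_ne_zero
        · rintro k ⟨hk, hkx⟩
          rw [Finset.mem_image] at hk
          obtain ⟨B, hB, rfl⟩ := hk
          rw [mem_ngs] at hB
          rcases hclx _ _ _ a (hclean B hB) (hsuppS a ha.2) hkx with h1 | h1
          · rw [hYinj2 B A hB hA (by rw [← h1, hAa])]
          · rw [← h1] at hB
            linarith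
  refine ⟨(ngs ρ).image κ, hM, ?_⟩
  intro M' hM'
  have hsym : ∀ k y y', D.Clean S k y y' → D.Clean S k y' y := by
    rintro k y y' ⟨h1, h2, h3, h4, h5, h6⟩
    exact ⟨h2, h1, h3.symm, h5, h4, fun b hb hb1 hb2 => h6 b hb hb2 hb1⟩
  have key : ∀ m : ℕ, ∀ A, ρ A < 0 → h A = m → κ A ∈ M' := by
    intro m
    induction m using Nat.strong_induction_on with
    | _ m ih =>
    intro A hA hm
    have hYs : Y A ∈ univ.filter fun a => ρ a ≠ 0 := by
      rw [mem_filter]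
      exact ⟨Finset.mem_univ _, (hρY2 A hA).ne'⟩
    obtain ⟨k, ⟨hkM, hkx⟩, -⟩ := hM'.2 (Y A) hYs
    obtain ⟨y1, hy1, y2, hy2, hcl⟩ := hM'.1 k hkM
    have hex : ∃ y' ∈ univ.filter fun a => ρ a ≠ 0, D.Clean S k (Y A) y' := by
      rcases hclx _ _ _ (Y A) hcl (hY A hA).1 hkx with h1 | h1
      · exact ⟨y2, hy2, by rw [h1]; exact hcl⟩
      · exact ⟨y1, hy1, by rw [h1]; exact hsym _ _ _ hcl⟩
    obtain ⟨y', hy', hcl'⟩ := hex
    obtain ⟨hidl, hidρ⟩ := hIDN.2.2.2.2 k (Y A) y' hcl'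
    have hy'neg : ρ y' < 0 := by
      have h1 := hidρ ρ hρ
      have h2 := hρY2 A hA
      linarith
    have hy'Q : y' ∈ qcl D S ρ A := by
      rw [mem_qcl]
      refine ⟨hy'neg, cA A, lt_of_lt_of_le one_pos (hcA A hA).2.1, fun l hl => ?_⟩
      have h1 := hidl l hl
      have h2 := (hcA A hA).1 l hl
      linarith
    obtain ⟨hYS, hYQ, hκA, hpriv, huniq⟩ := hY A hA
    by_cases hle : h A ≤ h y'
    · have h1 : D.Priv (S \ (qcl D S ρ A).filter fun r => h A ≤ h r) (Y A) k := by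
        refine ⟨hpriv.1, hcl'.2.2.2.1, ?_⟩
        intro b hb hbY
        rw [Finset.mem_sdiff] at hb
        refine hcl'.2.2.2.2.2 b hb.1 hbY ?_
        rintro rfl
        exact hb.2 (mem_filter.2 ⟨hy'Q, hle⟩)
      rw [← huniq k h1]
      exact hkM
    · push Not at hle
      exfalso
      have h1 : κ y' ∈ M' := ih (h y') (by omega) y' hy'neg rfl
      obtain ⟨k0, -, hk0⟩ := hM'.2 y' hy'
      have h2 : κ y' = k := by
        rw [hk0 (κ y') ⟨h1, (hY y' hy'neg).2.2.1⟩,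
          hk0 k ⟨hkM, by rw [hcl'.2.2.2.2.1]; exact one_ne_zero⟩]
      rw [← h2] at hkx
      rcases hclx _ _ _ (Y A) (hclean y' hy'neg) hYS hkx with h3 | h3
      · have h4 := hYinj2 A y' hA hy'neg h3
        rw [h4] at hle
        exact lt_irrefl _ hle
      · have h4 := hρY2 A hA
        rw [h3] at h4
        linarith
  ext k
  constructor
  · intro hk
    obtain ⟨y, hy, y', hy', hcl⟩ := hM'.1 k hk
    obtain ⟨k2, ⟨hk2, hk2x⟩, -⟩ := hM.2 y hy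
    have hk2' : k2 ∈ M' := by
      rw [Finset.mem_image] at hk2
      obtain ⟨A, hA, rfl⟩ := hk2
      exact key _ A ((mem_ngs ρ A).1 hA) rfl
    obtain ⟨k0, -, hk0⟩ := hM'.2 y hy
    rw [hk0 k ⟨hk, by rw [hcl.2.2.2.1]; exact one_ne_zero⟩, ← hk0 k2 ⟨hk2', hk2x⟩]
    exact hk2
  · intro hk
    rw [Finset.mem_image] at hk
    obtain ⟨A, hA, rfl⟩ := hk
    exact key _ A ((mem_ngs ρ A).1 hA) rfl

end Pool.Agent.KTB.H16
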